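import Pool.Agent.P8H17.UL.Stm

/-!
# Project UL (helper17), package RD + EN (helper92)

The reduction homomorphism on the points with nonsingular reduction of a Weierstrass equation over a
valuation ring, from the three cases RA, RB, RC of the addition law.
-/

set_option autoImplicit false

open WeierstrassCurve IsLocalRing Pool.Agent.P8H17.UL

namespace Pool.Agent.P8H92.UL

section red

variable {L : Type} [Field L] {A : ValuationSubring L} {V : WeierstrassCurve A}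

/-- if the first coordinate is integral, so is the second -/
lemma y_mem {x y : L} (h : (gn V).toAffine.Equation x y) (hx : x ∈ A) : y ∈ A := by
  rcases A.mem_or_inv_mem y with hy | hy
  · exact hy
  by_cases h0 : y = 0
  · rw [h0]; exact A.zero_mem
  rw [Affine.equation_iff] at h
  have e1 : (gn V).a₁ = (V.a₁ : L) := rfl
  have e2 : (gn V).a₂ = (V.a₂ : L) := rfl
  have e3 : (gn V).a₃ = (V.a₃ : L) := rfl
  have e4 : (gn V).a₄ = (V.a₄ : L) := rfl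
  have e6 : (gn V).a₆ = (V.a₆ : L) := rfl
  simp only [e1, e2, e3, e4, e6] at h
  have key : y = -((V.a₁ : L) * x + (V.a₃ : L)) +
      (x ^ 3 + (V.a₂ : L) * x ^ 2 + (V.a₄ : L) * x + (V.a₆ : L)) * y⁻¹ := by
    field_simp
    linear_combination h
  rw [key]
  exact A.add_mem _ _ (A.neg_mem _ (A.add_mem _ _ (A.mul_mem _ _ V.a₁.2 hx) V.a₃.2))
    (A.mul_mem _ _ (A.add_mem _ _ (A.add_mem _ _ (A.add_mem _ _ (pow_mem hx 3)
      (A.mul_mem _ _ V.a₂.2 (pow_mem hx 2))) (A.mul_mem _ _ V.a₄.2 hx)) V.a₆.2) hy)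

/-- the relation between a point and its reduction -/
def Rl (P : Pt (gn V)) (Q : Pt (sp V)) : Prop :=
  (P = 0 ∧ Q = 0) ∨
  (∃ (x y : L) (h : (gn V).toAffine.Nonsingular x y), x ∉ A ∧ P = pt h ∧ Q = 0) ∨
  ∃ (x y : A) (h : (gn V).toAffine.Nonsingular (x : L) (y : L))
    (g : (sp V).toAffine.Nonsingular (residue A x) (residue A y)), P = pt h ∧ Q = pt g

lemma Rl.zero : Rl (0 : Pt (gn V)) (0 : Pt (sp V)) := Or.inl ⟨rfl, rfl⟩

lemma Rl.unique {P : Pt (gn V)} {Q Q' : Pt (sp V)} (h : Rl P Q) (h' : Rl P Q') : Q = Q' := by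
  rcases h with ⟨hP, hQ⟩ | ⟨x, y, h, hx, hP, hQ⟩ | ⟨x, y, h, g, hP, hQ⟩ <;>
  rcases h' with ⟨hP', hQ'⟩ | ⟨x', y', h', hx', hP', hQ'⟩ | ⟨x', y', h', g', hP', hQ'⟩
  · rw [hQ, hQ']
  · rw [hQ, hQ']
  · exact absurd (hP'.symm.trans hP) (pt_ne _)
  · rw [hQ, hQ']
  · rw [hQ, hQ']
  · obtain ⟨e1, -⟩ := pt_inj (hP.symm.trans hP')
    exact absurd (by rw [e1]; exact x'.2) hx
  · exact absurd (hP.symm.trans hP') (pt_ne _)
  · obtain ⟨e1, -⟩ := pt_inj (hP'.symm.trans hP)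
    exact absurd (by rw [e1]; exact x.2) hx'
  · obtain ⟨e1, e2⟩ := pt_inj (hP.symm.trans hP')
    rw [hQ, hQ']
    exact pt_congr _ _ (by rw [Subtype.ext e1]) (by rw [Subtype.ext e2])

lemma Rl.neg {P : Pt (gn V)} {Q : Pt (sp V)} (h : Rl P Q) : Rl (-P) (-Q) := by
  rcases h with ⟨hP, hQ⟩ | ⟨x, y, h, hx, hP, hQ⟩ | ⟨x, y, h, g, hP, hQ⟩
  · exact Or.inl ⟨by rw [hP, neg_zero], by rw [hQ, neg_zero]⟩
  · exact Or.inr (Or.inl ⟨x, _, (Affine.nonsingular_neg x y).2 h, hx, by rw [hP, neg_pt],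
      by rw [hQ, neg_zero]⟩)
  · refine Or.inr (Or.inr ⟨x, -y - V.a₁ * x - V.a₃, ?_, ?_, ?_, ?_⟩)
    · exact (Affine.nonsingular_neg (x : L) (y : L)).2 h
    · have e := (Affine.nonsingular_neg (residue A x) (residue A y)).2 g
      have e2 : (sp V).toAffine.negY (residue A x) (residue A y) =
          residue A (-y - V.a₁ * x - V.a₃) := by
        rw [map_sub, map_sub, map_neg, map_mul]
        rfl
      rw [← e2]
      exact e
    · rw [hP, neg_pt]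
      rfl
    · rw [hQ, neg_pt]
      refine pt_congr _ _ rfl ?_
      rw [map_sub, map_sub, map_neg, map_mul]
      rfl

/-- a point in the kernel plus an integral point -/
lemma Rl.add_ki (hc : S_RC) {x₁ y₁ : L} (h₁ : (gn V).toAffine.Nonsingular x₁ y₁) (hx : x₁ ∉ A)
    {x₂ y₂ : A} (h₂ : (gn V).toAffine.Nonsingular (x₂ : L) (y₂ : L))
    (g₂ : (sp V).toAffine.Nonsingular (residue A x₂) (residue A y₂)) :
    Rl (pt h₁ + pt h₂) (pt g₂) := by
  obtain ⟨x₃, y₃, h₃, e, r1, r2⟩ := hc L A V x₁ y₁ x₂ y₂ h₁ h₂ hx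
  refine Or.inr (Or.inr ⟨x₃, y₃, h₃, ?_, e, ?_⟩)
  · rw [r1, r2]; exact g₂
  · exact pt_congr _ _ r1.symm r2.symm

/-- two points in the kernel -/
lemma Rl.add_kk (hc : S_RC) {x₁ y₁ : L} (h₁ : (gn V).toAffine.Nonsingular x₁ y₁) (hx₁ : x₁ ∉ A)
    {x₂ y₂ : L} (h₂ : (gn V).toAffine.Nonsingular x₂ y₂) (hx₂ : x₂ ∉ A) :
    Rl (pt h₁ + pt h₂) (0 : Pt (sp V)) := by
  rcases pt_cases (pt h₁ + pt h₂) with e | ⟨x, y, h, e⟩
  · exact Or.inl ⟨e, rfl⟩
  by_cases hx : x ∈ A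
  · exfalso
    have hy : y ∈ A := y_mem h.1 hx
    have h' : (gn V).toAffine.Nonsingular ((⟨x, hx⟩ : A) : L) ((⟨y, hy⟩ : A) : L) := h
    obtain ⟨x₃, y₃, h₃, e3, -, -⟩ := hc L A V x₂ _ ⟨x, hx⟩ ⟨y, hy⟩
      ((Affine.nonsingular_neg x₂ y₂).2 h₂) h' hx₂
    have e4 : -pt h₂ + pt h = pt h₃ := by
      rw [neg_pt]
      exact e3
    rw [← e, add_comm (pt h₁), neg_add_cancel_left] at e4
    obtain ⟨e5, -⟩ := pt_inj e4
    exact hx₁ (by rw [e5]; exact x₃.2)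
  · exact Or.inr (Or.inl ⟨x, y, h, hx, e, rfl⟩)

lemma Rl.add (ha : S_RA) (hb : S_RB) (hc : S_RC) {P P' : Pt (gn V)} {Q Q' : Pt (sp V)}
    (h : Rl P Q) (h' : Rl P' Q') : Rl (P + P') (Q + Q') := by
  rcases h with ⟨hP, hQ⟩ | ⟨x, y, h, hx, hP, hQ⟩ | ⟨x, y, h, g, hP, hQ⟩
  · rw [hP, hQ, zero_add, zero_add]
    exact h'
  · rcases h' with ⟨hP', hQ'⟩ | ⟨x', y', h', hx', hP', hQ'⟩ | ⟨x', y', h', g', hP', hQ'⟩
    · rw [hP', hQ', add_zero, add_zero]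
      exact Or.inr (Or.inl ⟨x, y, h, hx, hP, hQ⟩)
    · rw [hP, hQ, hP', hQ', zero_add]
      exact Rl.add_kk hc h hx h' hx'
    · rw [hP, hQ, hP', hQ', zero_add]
      exact Rl.add_ki hc h hx h' g'
  · rcases h' with ⟨hP', hQ'⟩ | ⟨x', y', h', hx', hP', hQ'⟩ | ⟨x', y', h', g', hP', hQ'⟩
    · rw [hP', hQ', add_zero, add_zero]
      exact Or.inr (Or.inr ⟨x, y, h, g, hP, hQ⟩)
    · rw [hP, hQ, hP', hQ', add_zero, add_comm]
      exact Rl.add_ki hc h' hx' h g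
    · rw [hP, hQ, hP', hQ']
      by_cases hop : residue A x = residue A x' ∧
          residue A y = (sp V).toAffine.negY (residue A x') (residue A y')
      · have e0 : pt g + pt g' = 0 := add_pt_of_eq g g' hop.1 hop.2
        rw [e0]
        rcases hb L A V x y x' y' h h' g g' hop.1 hop.2 with e | ⟨x₃, y₃, h₃, hx₃, e⟩
        · exact Or.inl ⟨e, rfl⟩
        · exact Or.inr (Or.inl ⟨x₃, y₃, h₃, hx₃, e, rfl⟩)
      · obtain ⟨x₃, y₃, h₃, g₃, e, e'⟩ := ha L A V x y x' y' h h' g g' hop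
        exact Or.inr (Or.inr ⟨x₃, y₃, h₃, g₃, e, e'⟩)

end red

/-- **RD**: the reduction homomorphism exists. -/
theorem rd (ha : S_RA) (hb : S_RB) (hc : S_RC) : S_RD := by
  intro L _ A V
  classical
  let E : AddSubgroup (Pt (gn V)) :=
    { carrier := {P | ∃ Q : Pt (sp V), Rl P Q}
      zero_mem' := ⟨0, Rl.zero⟩
      add_mem' := fun {P P'} hP hP' => by
        obtain ⟨Q, hQ⟩ := hP
        obtain ⟨Q', hQ'⟩ := hP'
        exact ⟨Q + Q', Rl.add ha hb hc hQ hQ'⟩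
      neg_mem' := fun {P} hP => by
        obtain ⟨Q, hQ⟩ := hP
        exact ⟨-Q, Rl.neg hQ⟩ }
  have hE : ∀ P : E, ∃ Q : Pt (sp V), Rl (P : Pt (gn V)) Q := fun P => P.2
  choose r hr using hE
  let red : E →+ Pt (sp V) := AddMonoidHom.mk' r (fun P P' =>
    Rl.unique (hr (P + P')) (Rl.add ha hb hc (hr P) (hr P')))
  have hred : ∀ P : E, Rl (P : Pt (gn V)) (red P) := hr
  refine ⟨E, red, ⟨?_, ?_, ?_⟩⟩
  · intro x y h
    constructor
    · rintro ⟨Q, hP | ⟨x', y', h', hx', hP, -⟩ | ⟨x', y', h', g, hP, -⟩⟩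
      · exact absurd hP.1 (pt_ne _)
      · obtain ⟨e, -⟩ := pt_inj hP
        exact Or.inl (by rw [e]; exact hx')
      · obtain ⟨e, e'⟩ := pt_inj hP
        exact Or.inr ⟨x', y', e.symm, e'.symm, g⟩
    · rintro (hx | ⟨x', y', e, e', g⟩)
      · exact ⟨0, Or.inr (Or.inl ⟨x, y, h, hx, rfl, rfl⟩)⟩
      · subst e e'
        exact ⟨pt g, Or.inr (Or.inr ⟨x', y', h, g, rfl, rfl⟩)⟩
  · intro x y h hm hx
    exact Rl.unique (hred ⟨pt h, hm⟩) (Or.inr (Or.inl ⟨x, y, h, hx, rfl, rfl⟩))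
  · intro x y h hm
    rcases hred ⟨pt h, hm⟩ with hP | ⟨x', y', h', hx', hP, -⟩ | ⟨x', y', h', g, hP, hQ⟩
    · exact absurd hP.1 (pt_ne _)
    · obtain ⟨e, -⟩ := pt_inj hP
      exact absurd (by rw [← e]; exact x.2) hx'
    · obtain ⟨e, e'⟩ := pt_inj hP
      have e1 : x' = x := Subtype.ext e.symm
      have e2 : y' = y := Subtype.ext e'.symm
      subst e1 e2
      exact ⟨g, hQ⟩

/-- the ring of the elements of norm at most one -/
noncomputable def unitBall (Ω : Type) [NormedField Ω] (na : ∀ x y : Ω, ‖x + y‖ ≤ max ‖x‖ ‖y‖) :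
    ValuationSubring Ω where
  carrier := {x | ‖x‖ ≤ 1}
  mul_mem' := fun {a b} ha hb => by
    change ‖a * b‖ ≤ 1
    rw [norm_mul]
    exact mul_le_one₀ ha (norm_nonneg _) hb
  one_mem' := by
    change ‖(1 : Ω)‖ ≤ 1
    rw [norm_one]
  add_mem' := fun {a b} ha hb => (na a b).trans (max_le ha hb)
  zero_mem' := by
    change ‖(0 : Ω)‖ ≤ 1
    rw [norm_zero]; exact zero_le_one
  neg_mem' := fun {a} ha => by
    change ‖-a‖ ≤ 1
    rw [norm_neg]; exact ha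
  mem_or_inv_mem' := fun a => by
    change ‖a‖ ≤ 1 ∨ ‖a⁻¹‖ ≤ 1
    rw [norm_inv]
    rcases le_total ‖a‖ 1 with h | h
    · exact Or.inl h
    · exact Or.inr (inv_le_one_of_one_le₀ h)

lemma mem_unitBall {Ω : Type} [NormedField Ω] (na : ∀ x y : Ω, ‖x + y‖ ≤ max ‖x‖ ‖y‖) (x : Ω) :
    x ∈ unitBall Ω na ↔ ‖x‖ ≤ 1 := Iff.rfl

lemma residue_ne_zero {Ω : Type} [NormedField Ω] (na : ∀ x y : Ω, ‖x + y‖ ≤ max ‖x‖ ‖y‖)
    (x : unitBall Ω na) : residue (unitBall Ω na) x ≠ 0 ↔ ‖(x : Ω)‖ = 1 := by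
  rw [residue_ne_zero_iff_isUnit]
  constructor
  · rintro ⟨u, rfl⟩
    have h1 : ‖((u : unitBall Ω na) : Ω)‖ ≤ 1 := (u : unitBall Ω na).2
    have h2 : ‖(((u⁻¹ : (unitBall Ω na)ˣ) : unitBall Ω na) : Ω)‖ ≤ 1 :=
      ((u⁻¹ : (unitBall Ω na)ˣ) : unitBall Ω na).2
    have h3 : ((u : unitBall Ω na) : Ω) * (((u⁻¹ : (unitBall Ω na)ˣ) : unitBall Ω na) : Ω) = 1 := by
      have h := congrArg (Subtype.val) (u.mul_inv)
      exact h
    have h4 := congrArg norm h3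
    rw [norm_mul, norm_one] at h4
    nlinarith [norm_nonneg ((u : unitBall Ω na) : Ω),
      norm_nonneg (((u⁻¹ : (unitBall Ω na)ˣ) : unitBall Ω na) : Ω)]
  · intro h
    have h0 : (x : Ω) ≠ 0 := by
      intro h0
      rw [h0, norm_zero] at h
      exact zero_ne_one h
    have hi : (x : Ω)⁻¹ ∈ unitBall Ω na := by
      rw [mem_unitBall, norm_inv, h, inv_one]
    exact IsUnit.of_mul_eq_one ⟨(x : Ω)⁻¹, hi⟩ (Subtype.ext (mul_inv_cancel₀ h0))

/-- **EN**: the points with nonsingular reduction form a subgroup. -/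
theorem en (hrd : S_RD) : S_EN := by
  intro Ω _ na V hV
  obtain ⟨V', rfl⟩ : ∃ V' : WeierstrassCurve (unitBall Ω na), gn V' = V :=
    ⟨⟨⟨V.a₁, hV.h1⟩, ⟨V.a₂, hV.h2⟩, ⟨V.a₃, hV.h3⟩, ⟨V.a₄, hV.h4⟩, ⟨V.a₆, hV.h6⟩⟩, rfl⟩
  obtain ⟨E, red, hE⟩ := hrd Ω (unitBall Ω na) V'
  refine ⟨E, fun P => ?_⟩
  rcases pt_cases P with rfl | ⟨x, y, h, rfl⟩
  · refine ⟨fun _ x y h e => absurd e.symm (pt_ne _), fun _ => E.zero_mem⟩
  rw [hE.mem]
  have hNS : NS (pt h) ↔ (1 < ‖x‖ ∨ ‖(gn V').a₁ * y - (3 * x ^ 2 + 2 * (gn V').a₂ * x +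
      (gn V').a₄)‖ = 1 ∨ ‖2 * y + (gn V').a₁ * x + (gn V').a₃‖ = 1) := by
    constructor
    · intro hn
      exact hn x y h rfl
    · intro hn x' y' h' e
      obtain ⟨e1, e2⟩ := pt_inj e
      subst e1 e2
      exact hn
  rw [hNS]
  by_cases hx : x ∈ unitBall Ω na
  · have hy : y ∈ unitBall Ω na := y_mem h.1 hx
    have hx1 : ¬ 1 < ‖x‖ := not_lt.2 hx
    have hx2 : ¬ x ∉ unitBall Ω na := fun hn => hn hx
    simp only [hx1, hx2, false_or]
    have hR : ResNS V' x y ↔ (sp V').toAffine.Nonsingular (residue _ ⟨x, hx⟩)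
        (residue _ ⟨y, hy⟩) := by
      constructor
      · rintro ⟨x', y', e1, e2, g⟩
        have e3 : x' = ⟨x, hx⟩ := Subtype.ext e1
        have e4 : y' = ⟨y, hy⟩ := Subtype.ext e2
        rw [← e3, ← e4]
        exact g
      · intro g
        exact ⟨_, _, rfl, rfl, g⟩
    rw [hR, Affine.nonsingular_iff']
    have heq : (sp V').toAffine.Equation (residue _ ⟨x, hx⟩) (residue _ ⟨y, hy⟩) := by
      have h1 := h.1
      have h2 : V'.toAffine.Equation (⟨x, hx⟩ : unitBall Ω na) ⟨y, hy⟩ := by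
        rw [Affine.equation_iff'] at h1 ⊢
        exact Subtype.ext h1
      rw [Affine.equation_iff'] at h2 ⊢
      have h3 := congrArg (residue (unitBall Ω na)) h2
      rw [map_zero] at h3
      rw [← h3]
      simp only [map_sub, map_add, map_mul, map_pow]
      rfl
    have e1 : (sp V').toAffine.a₁ * residue _ ⟨y, hy⟩ - (3 * residue _ ⟨x, hx⟩ ^ 2 +
        2 * (sp V').toAffine.a₂ * residue _ ⟨x, hx⟩ + (sp V').toAffine.a₄) =
        residue (unitBall Ω na) (V'.a₁ * ⟨y, hy⟩ - (3 * ⟨x, hx⟩ ^ 2 + 2 * V'.a₂ * ⟨x, hx⟩ + V'.a₄)) := by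
      simp only [map_sub, map_add, map_mul, map_pow, map_ofNat]
      rfl
    have e2 : 2 * residue _ ⟨y, hy⟩ + (sp V').toAffine.a₁ * residue _ ⟨x, hx⟩ +
        (sp V').toAffine.a₃ = residue (unitBall Ω na) (2 * ⟨y, hy⟩ + V'.a₁ * ⟨x, hx⟩ + V'.a₃) := by
      simp only [map_add, map_mul, map_ofNat]
      rfl
    rw [e1, e2, residue_ne_zero, residue_ne_zero]
    constructor
    · rintro ⟨-, h1 | h1⟩
      · exact Or.inl h1
      · exact Or.inr h1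
    · rintro (h1 | h1)
      · exact ⟨heq, Or.inl h1⟩
      · exact ⟨heq, Or.inr h1⟩
  · exact ⟨fun _ => Or.inl (not_le.1 hx), fun _ => Or.inl hx⟩

end Pool.Agent.P8H92.UL
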